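import Pool.Agent.H23.CM4.Targets

/-! EXL: the `L`-functions exist. -/

set_option autoImplicit false

open NumberField MeasureTheory Set Filter Complex
open scoped nonZeroDivisors Real

namespace Pool.Agent.H38.CM4

open Pool.Agent.H23.CM4
open Pool.Agent.H31.CN (IsLf)
open Pool.Agent.H61.FM (CC pv Sp)
open Pool.Agent.H65.CM4 (gG Kc Sq nm dg)
open Pool.Agent.H25.HK (FI Pri du)

theorem pf_EXL (hXI : T_XI) (hGGE : T_GGE) (hDSM : T_DSM) : T_EXL := by
  intro n K _ _ hK ψ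
  obtain ⟨Ξ, Ξ', ε, -, hΞ, -, hΞ1, -⟩ := hXI n K hK ψ
  obtain ⟨-, -, g, hg, hgG⟩ := hGGE
  obtain ⟨hpv, hnJ, hsum⟩ := hDSM K
  have hd : (dK K : ℂ) ≠ 0 := by
    have h1 : dK K ≠ 0 := by
      unfold dK
      exact abs_ne_zero.2 (by exact_mod_cast NumberField.discr_ne_zero K)
    exact_mod_cast h1
  refine ⟨fun s => Ξ s * (g s / (s - 1)) ^ n * (dK K : ℂ) ^ (-(s / 2)), ?_, ?_⟩
  · intro s hs
    have hs1 : s - 1 ≠ 0 := sub_ne_zero.2 (by simpa using hs)
    refine DifferentiableAt.differentiableWithinAt ?_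
    refine (((hΞ s).mul (((hg s).div ((differentiableAt_id).sub_const 1) hs1).pow n)).mul ?_)
    refine DifferentiableAt.const_cpow ?_ (Or.inl hd)
    exact ((differentiableAt_id).div_const 2).neg
  · intro s hs
    have hs1 : s - 1 ≠ 0 := by
      intro h
      have : s = 1 := sub_eq_zero.1 h
      rw [this] at hs
      simp at hs
    have e0 : Ξ s * (g s / (s - 1)) ^ n * (dK K : ℂ) ^ (-(s / 2)) =
        ∑' J : (Ideal (𝓞 K))⁰, pv ψ J * (nJ J : ℂ) ^ (-s) := by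
      rw [hΞ1 s hs]
      have e1 : gG s ^ n * (g s / (s - 1)) ^ n = 1 := by
        rw [← mul_pow, mul_div_assoc', mul_comm (gG s), hgG s (by linarith), div_self hs1, one_pow]
      have e2 : (dK K : ℂ) ^ (s / 2) * (dK K : ℂ) ^ (-(s / 2)) = 1 := by
        rw [Complex.cpow_neg]
        exact mul_inv_cancel₀ (by rw [Ne, Complex.cpow_eq_zero_iff]; tauto)
      generalize (∑' J : (Ideal (𝓞 K))⁰, pv ψ J * (nJ J : ℂ) ^ (-s)) = L
      linear_combination (L * (dK K : ℂ) ^ (s / 2) * (dK K : ℂ) ^ (-(s / 2))) * e1 + L * e2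
    change HasSum _ (Ξ s * (g s / (s - 1)) ^ n * (dK K : ℂ) ^ (-(s / 2)))
    rw [e0]
    have hS : Summable fun J : (Ideal (𝓞 K))⁰ => pv ψ J * (nJ J : ℂ) ^ (-s) := by
      refine Summable.of_norm ?_
      refine (hsum s.re hs).congr fun J => ?_
      rw [norm_mul, hpv, one_mul, Complex.norm_cpow_eq_rpow_re_of_pos (by linarith [hnJ J]),
        Complex.neg_re]
    have h3 := hS.hasSum
    have e4 : (fun I : (Ideal (𝓞 K))⁰ => ((ψ (ClassGroup.mk0 I) : ℂˣ) : ℂ) *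
        (Ideal.absNorm (I : Ideal (𝓞 K)) : ℂ) ^ (-s)) =
        fun J : (Ideal (𝓞 K))⁰ => pv ψ J * (nJ J : ℂ) ^ (-s) := by
      funext J
      unfold pv nJ
      rw [Complex.ofReal_natCast]
    rw [e4]
    exact h3

end Pool.Agent.H38.CM4
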