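import Pool.Agent.H23.CM4.Targets

/-! SM2: the second moment. -/

set_option autoImplicit false

open NumberField MeasureTheory Set Filter Complex
open scoped nonZeroDivisors Real

namespace Pool.Agent.H38.CM4

open Pool.Agent.H23.CM4
open Pool.Agent.H31.CN (IsLf)
open Pool.Agent.H61.FM (CC pv Sp)
open Pool.Agent.H65.CM4 (gG Kc Sq nm dg)
open Pool.Agent.H25.HK (FI Pri du)

theorem sq_one (k : Type) [Field k] [NumberField k] (hJDM : T_JDM) (b : ℕ) :
    Sq (k := k) b 1 = {⊤} := by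
  obtain ⟨-, hSq, hnm, -, -⟩ := hJDM k
  ext I
  rw [hSq, Finset.mem_singleton]
  constructor
  · rintro ⟨h1, -, -, h2⟩
    have h3 := hnm I h1
    have h4 : nm I = 1 := le_antisymm h2 h3
    unfold nm at h4
    exact Ideal.absNorm_eq_one_iff.1 (by exact_mod_cast h4)
  · rintro rfl
    refine ⟨top_ne_bot, ?_, top_sup_eq _, ?_⟩
    · rw [← Ideal.one_eq_top]; exact squarefree_one
    · unfold nm
      rw [Ideal.absNorm_top]
      norm_num

theorem pf_SM2 (hTMF : T_TMF) (hMUL : T_MUL) (hJDM : T_JDM) : T_SM2 := by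
  intro k _ _ _ ε hε
  obtain ⟨b, hb, h⟩ := hTMF k
  obtain ⟨κ, hκ0, hκ1, δ, hδ, C, j, hC, h1⟩ := h ε hε
  refine ⟨κ, hκ0, hκ1, C, j, hC, ?_⟩
  intro s X ι S K _ _ _ F hs hX hF
  have h2 := h1 s X 1 (fun _ => 1) ι S K F hs hX le_rfl
    (Real.one_le_rpow hX (by positivity)) (fun _ => by simp) hF
  rw [mul_one] at h2
  refine le_trans (le_of_eq ?_) h2
  refine Finset.sum_congr rfl fun i _ => Finset.sum_congr rfl fun ψ _ => ?_
  rw [sq_one k hJDM b, Finset.sum_singleton, (hMUL k (K i) ψ).1]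
  simp

end Pool.Agent.H38.CM4
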