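import Pool.Agent.H65.CM4.Targets1

/-! DVI: the number of the divisors of an ideal. -/

set_option autoImplicit false

open MeasureTheory Set Filter NumberField NumberField.InfinitePlace Pool.Agent.H65.CM4
open UniqueFactorizationMonoid
open scoped Real

namespace Pool.Agent.H38.CM4

theorem dvi_base (ε : ℝ) (hε : 0 < ε) : ∃ C1 : ℝ, 1 ≤ C1 ∧ ∀ c : ℕ,
    (c : ℝ) + 2 ≤ C1 * ((2 : ℝ) ^ ε) ^ c := by
  set a : ℝ := 2 ^ ε - 1 with ha
  have ha0 : 0 < a := by
    have : (1 : ℝ) < 2 ^ ε := Real.one_lt_rpow (by norm_num) hε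
    linarith
  set C1 : ℝ := max 2 a⁻¹ with hC1
  have hC11 : 2 ≤ C1 := le_max_left _ _
  refine ⟨C1, by linarith, fun c => ?_⟩
  have h1 : 1 + (c : ℝ) * a ≤ ((2 : ℝ) ^ ε) ^ c := by
    have := one_add_mul_le_pow (a := a) (by linarith) c
    have e : 1 + a = (2 : ℝ) ^ ε := by rw [ha]; ring
    rwa [e] at this
  have h2 : (c : ℝ) ≤ C1 * ((c : ℝ) * a) := by
    have h3 : 1 ≤ C1 * a := by
      have : a⁻¹ * a ≤ C1 * a := mul_le_mul_of_nonneg_right (le_max_right _ _) ha0.le
      rwa [inv_mul_cancel₀ ha0.ne'] at this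
    have h4 : (0 : ℝ) ≤ c := by positivity
    nlinarith
  calc (c : ℝ) + 2 ≤ C1 * ((c : ℝ) * a) + C1 * 1 := by linarith
    _ = C1 * (1 + (c : ℝ) * a) := by ring
    _ ≤ _ := mul_le_mul_of_nonneg_left h1 (by linarith)

theorem two_le_three_pow (c : ℕ) (hc : 1 ≤ c) : c + 2 ≤ 3 ^ c := by
  induction c, hc using Nat.le_induction with
  | base => norm_num
  | succ n _ ih => rw [pow_succ]; omega

section

variable (k : Type) [Field k] [NumberField k]

open Classical in
theorem dvi_prod (ε : ℝ) (hε : 0 < ε) : ∃ C : ℝ, 1 ≤ C ∧ ∀ I : Ideal (𝓞 k), I ≠ ⊥ →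
    ∏ P ∈ (normalizedFactors I).toFinset, (((normalizedFactors I).count P : ℝ) + 2) ≤
      C * nm I ^ ε := by
  obtain ⟨C1, hC11, hB⟩ := dvi_base ε hε
  set Y : ℕ := ⌈(3 : ℝ) ^ (1 / ε)⌉₊ with hY
  have hfin : {P : Ideal (𝓞 k) | Ideal.absNorm P ≤ Y}.Finite := Ideal.finite_setOfPred_absNorm_le Y
  refine ⟨C1 ^ hfin.toFinset.card, one_le_pow₀ hC11, ?_⟩
  intro I hI
  have hI0 : I ≠ 0 := by rwa [Ideal.zero_eq_bot]
  set F := normalizedFactors I with hF
  have hN : nm I = ∏ P ∈ F.toFinset, ((Ideal.absNorm P : ℝ)) ^ F.count P := by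
    unfold nm
    have h2 : Ideal.absNorm I = ∏ P ∈ F.toFinset, Ideal.absNorm P ^ F.count P := by
      rw [← Finset.prod_multiset_map_count, ← map_multiset_prod,
        Ideal.prod_normalizedFactors_eq_self hI0]
    rw [h2]
    push_cast
    rfl
  have hpr : ∀ P ∈ F.toFinset, Prime P := fun P hP =>
    prime_of_normalized_factor P (Multiset.mem_toFinset.1 hP)
  have hn2 : ∀ P ∈ F.toFinset, 2 ≤ Ideal.absNorm P := by
    intro P hP
    have h4 : Ideal.absNorm P ≠ 0 := fun h0 =>
      (hpr P hP).ne_zero (Ideal.absNorm_eq_zero_iff.1 h0)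
    have h5 : Ideal.absNorm P ≠ 1 := fun h1 => (hpr P hP).not_isUnit
      (Ideal.isUnit_iff.2 (Ideal.absNorm_eq_one_iff.1 h1))
    omega
  have hfac : ∀ P ∈ F.toFinset, ((F.count P : ℝ) + 2) ≤
      (if Ideal.absNorm P ≤ Y then C1 else 1) * ((Ideal.absNorm P : ℝ) ^ ε) ^ F.count P := by
    intro P hP
    have h2 : (2 : ℝ) ≤ Ideal.absNorm P := by exact_mod_cast hn2 P hP
    split_ifs with h
    · refine (hB _).trans ?_
      refine mul_le_mul_of_nonneg_left ?_ (by linarith)
      exact pow_le_pow_left₀ (by positivity) (Real.rpow_le_rpow (by norm_num) h2 hε.le) _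
    · rw [one_mul]
      have h3 : (3 : ℝ) ≤ (Ideal.absNorm P : ℝ) ^ ε := by
        have h4 : (3 : ℝ) ^ (1 / ε) ≤ Ideal.absNorm P := by
          refine (Nat.le_ceil _).trans ?_
          have : Y ≤ Ideal.absNorm P := by omega
          exact_mod_cast this
        calc (3 : ℝ) = ((3 : ℝ) ^ (1 / ε)) ^ ε := by
              rw [← Real.rpow_mul (by norm_num), one_div, inv_mul_cancel₀ hε.ne', Real.rpow_one]
          _ ≤ _ := Real.rpow_le_rpow (by positivity) h4 hε.le
      have hc : 1 ≤ F.count P := Multiset.one_le_count_iff_mem.2 (Multiset.mem_toFinset.1 hP)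
      calc ((F.count P : ℝ) + 2) ≤ 3 ^ F.count P := by
            exact_mod_cast two_le_three_pow _ hc
        _ ≤ _ := pow_le_pow_left₀ (by norm_num) h3 _
  calc ∏ P ∈ F.toFinset, ((F.count P : ℝ) + 2) ≤
      ∏ P ∈ F.toFinset, ((if Ideal.absNorm P ≤ Y then C1 else 1) *
          ((Ideal.absNorm P : ℝ) ^ ε) ^ F.count P) :=
        Finset.prod_le_prod (fun P _ => by positivity) hfac
    _ = C1 ^ (F.toFinset.filter (fun P => Ideal.absNorm P ≤ Y)).card * nm I ^ ε := by
        rw [Finset.prod_mul_distrib, Finset.prod_ite, Finset.prod_const, Finset.prod_const_one,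
          mul_one, hN]
        congr 1
        rw [← Real.finsetProd_rpow _ _ (fun P _ => by positivity)]
        refine Finset.prod_congr rfl fun P _ => ?_
        rw [← Real.rpow_natCast, ← Real.rpow_natCast, ← Real.rpow_mul (by positivity),
          ← Real.rpow_mul (by positivity), mul_comm]
    _ ≤ _ := by
        refine mul_le_mul_of_nonneg_right ?_ (Real.rpow_nonneg (by unfold nm; positivity) _)
        refine pow_le_pow_right₀ hC11 (Finset.card_le_card fun P hP => ?_)
        rw [Set.Finite.mem_toFinset]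
        exact (Finset.mem_filter.1 hP).2

open Classical in
theorem dvi_card (I : Ideal (𝓞 k)) (hI : I ≠ ⊥) :
    {J : Ideal (𝓞 k) | J ∣ I}.Finite ∧ {J : Ideal (𝓞 k) | J ∣ I}.ncard ≤
      ∏ P ∈ (normalizedFactors I).toFinset, ((normalizedFactors I).count P + 1) := by
  have hI0 : I ≠ 0 := by rwa [Ideal.zero_eq_bot]
  rw [← Multiset.card_Iic]
  have hmap : ∀ e ∈ {J : Ideal (𝓞 k) | J ∣ I}, normalizedFactors e ∈
      ((Finset.Iic (normalizedFactors I) : Finset (Multiset (Ideal (𝓞 k)))) : Set _) := by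
    intro e he
    simp only [Finset.coe_Iic, Set.mem_Iic]
    exact (dvd_iff_normalizedFactors_le_normalizedFactors (ne_zero_of_dvd_ne_zero hI0 he) hI0).1 he
  have hinj : Set.InjOn (fun e : Ideal (𝓞 k) => normalizedFactors e)
      {J : Ideal (𝓞 k) | J ∣ I} := by
    intro e he e' he' hee
    have h3 : e ≠ 0 := ne_zero_of_dvd_ne_zero hI0 he
    have h3' : e' ≠ 0 := ne_zero_of_dvd_ne_zero hI0 he'
    have h4 := Ideal.prod_normalizedFactors_eq_self h3
    have h4' := Ideal.prod_normalizedFactors_eq_self h3'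
    simp only at hee
    rw [← h4, hee, h4']
  constructor
  · exact Set.Finite.of_finite_image ((Finset.finite_toSet _).subset
      (by rintro _ ⟨e, he, rfl⟩; exact hmap e he)) hinj
  · rw [← Set.ncard_coe_finset]
    exact Set.ncard_le_ncard_of_injOn _ hmap hinj (Finset.finite_toSet _)

end

variable (k : Type) [Field k] [NumberField k] [IsTotallyReal k]

theorem pf_DVI (hEMB : T_EMB k) : T_DVI k := by
  classical
  intro ε hε
  obtain ⟨C, hC1, hC⟩ := dvi_prod k ε hε
  refine ⟨C, hC1, fun I hI => ?_⟩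
  have h1 := dvi_card k I hI
  refine ⟨h1.1, ?_, ?_⟩
  · refine le_trans ?_ (hC I hI)
    refine le_trans (Nat.cast_le.2 h1.2) ?_
    push_cast
    refine Finset.prod_le_prod (fun P _ => by positivity) fun P _ => ?_
    refine add_le_add le_rfl (by norm_num)
  · refine le_trans ?_ (hC I hI)
    unfold pf
    rw [← Finset.prod_const]
    refine Finset.prod_le_prod (fun P _ => by norm_num) fun P hP => ?_
    have hc : 1 ≤ (normalizedFactors I).count P :=
      Multiset.one_le_count_iff_mem.2 (Multiset.mem_toFinset.1 hP)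
    have hc' : (1 : ℝ) ≤ ((normalizedFactors I).count P : ℝ) := by exact_mod_cast hc
    linarith

end Pool.Agent.H38.CM4
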