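import Pool.Agent.H65.CM4.Targets1

/-! PN3: Gaussian sums over the forms. -/

set_option autoImplicit false

open MeasureTheory Set Filter NumberField NumberField.InfinitePlace Pool.Agent.H65.CM4
open scoped Real

namespace Pool.Agent.H38.CM4

section Gen

variable {α : Type}

theorem prod3 (f g h : α → ℝ) (hf : ∀ n, 0 ≤ f n) (hg : ∀ n, 0 ≤ g n) (hh : ∀ n, 0 ≤ h n)
    (sf : Summable f) (sg : Summable g) (sh : Summable h) :
    Summable (fun Q : α × α × α => f Q.1 * (g Q.2.1 * h Q.2.2)) ∧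
      ∑' Q : α × α × α, f Q.1 * (g Q.2.1 * h Q.2.2) = (∑' n, f n) * ((∑' n, g n) * ∑' n, h n) := by
  have s2 : Summable (fun R : α × α => g R.1 * h R.2) := sg.mul_of_nonneg sh hg hh
  have s3 : Summable (fun Q : α × (α × α) => f Q.1 * (fun R : α × α => g R.1 * h R.2) Q.2) :=
    sf.mul_of_nonneg s2 hf (fun R => mul_nonneg (hg _) (hh _))
  refine ⟨s3, ?_⟩
  have e2 : (∑' n, g n) * ∑' n, h n = ∑' R : α × α, g R.1 * h R.2 := sg.tsum_mul_tsum sh s2
  have e3 : (∑' n, f n) * ∑' R : α × α, g R.1 * h R.2 =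
      ∑' Q : α × (α × α), f Q.1 * (fun R : α × α => g R.1 * h R.2) Q.2 :=
    sf.tsum_mul_tsum s2 s3
  rw [e2, e3]

theorem prod3c (f g h : α → ℂ) (sf : Summable fun n => ‖f n‖) (sg : Summable fun n => ‖g n‖)
    (sh : Summable fun n => ‖h n‖) :
    ∑' Q : α × α × α, f Q.1 * (g Q.2.1 * h Q.2.2) = (∑' n, f n) * ((∑' n, g n) * ∑' n, h n) := by
  have s2 : Summable (fun R : α × α => ‖g R.1 * h R.2‖) := by
    have := sg.mul_of_nonneg sh (fun n => norm_nonneg _) (fun n => norm_nonneg _)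
    refine this.congr fun R => ?_
    rw [norm_mul]
  have e2 : (∑' n, g n) * ∑' n, h n = ∑' R : α × α, g R.1 * h R.2 :=
    tsum_mul_tsum_of_summable_norm sg sh
  have e3 : (∑' n, f n) * ∑' R : α × α, g R.1 * h R.2 =
      ∑' Q : α × (α × α), f Q.1 * (fun R : α × α => g R.1 * h R.2) Q.2 :=
    tsum_mul_tsum_of_summable_norm sf s2
  rw [e2, e3]

end Gen

variable (k : Type) [Field k] [NumberField k] [IsTotallyReal k]

theorem pf_PN3 (hEMB : T_EMB k) (hPN1 : T_PN1 k) : T_PN3 k := by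
  intro W r P ξ hW hr
  have hW0 : W ≠ 0 := hW.ne'
  have hr0 : r ≠ 0 := hr.ne'
  obtain ⟨a1, a2, a3⟩ := hPN1 (W / r) (fun v => (P v).1) (fun v => (ξ v).1) (by positivity)
  obtain ⟨b1, b2, b3⟩ := hPN1 W (fun v => (P v).2.1) (fun v => (ξ v).2.1) hW
  obtain ⟨c1, c2, c3⟩ := hPN1 (W * r) (fun v => (P v).2.2) (fun v => (ξ v).2.2) (by positivity)
  have hga : ∀ Q : QF k, ga W r P Q =
      Real.exp (-(π * (∑ v : Pl k, (rv v (Q.1 : k) - (P v).1) ^ 2) / (W / r) ^ 2)) *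
        (Real.exp (-(π * (∑ v : Pl k, (rv v (Q.2.1 : k) - (P v).2.1) ^ 2) / W ^ 2)) *
          Real.exp (-(π * (∑ v : Pl k, (rv v (Q.2.2 : k) - (P v).2.2) ^ 2) / (W * r) ^ 2))) := by
    intro Q
    rw [← Real.exp_add, ← Real.exp_add]
    have e1 : dq r P (rl Q) = r ^ 2 * (∑ v : Pl k, (rv v (Q.1 : k) - (P v).1) ^ 2) +
        (∑ v : Pl k, (rv v (Q.2.1 : k) - (P v).2.1) ^ 2) +
        (r ^ 2)⁻¹ * (∑ v : Pl k, (rv v (Q.2.2 : k) - (P v).2.2) ^ 2) := by
      unfold dq rl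
      rw [Finset.mul_sum, Finset.mul_sum, ← Finset.sum_add_distrib, ← Finset.sum_add_distrib]
      refine Finset.sum_congr rfl fun v _ => ?_
      field_simp
      ring
    unfold ga
    rw [e1]
    congr 1
    field_simp
    ring
  have hdz : ∀ Z : QF k, Real.exp (-(π * W ^ 2 * dz r (dp Z + ξ))) =
      Real.exp (-(π * (W / r) ^ 2 * ∑ v : Pl k, (rv v (Z.1 : k) / dk k + (ξ v).1) ^ 2)) *
        (Real.exp (-(π * W ^ 2 * ∑ v : Pl k, (rv v (Z.2.1 : k) / dk k + (ξ v).2.1) ^ 2)) *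
          Real.exp (-(π * (W * r) ^ 2 *
            ∑ v : Pl k, (rv v (Z.2.2 : k) / dk k + (ξ v).2.2) ^ 2))) := by
    intro Z
    rw [← Real.exp_add, ← Real.exp_add]
    have e1 : dz r (dp Z + ξ) =
        (r ^ 2)⁻¹ * (∑ v : Pl k, (rv v (Z.1 : k) / dk k + (ξ v).1) ^ 2) +
        (∑ v : Pl k, (rv v (Z.2.1 : k) / dk k + (ξ v).2.1) ^ 2) +
        r ^ 2 * (∑ v : Pl k, (rv v (Z.2.2 : k) / dk k + (ξ v).2.2) ^ 2) := by
      unfold dz
      rw [Finset.mul_sum, Finset.mul_sum, ← Finset.sum_add_distrib, ← Finset.sum_add_distrib]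
      refine Finset.sum_congr rfl fun v _ => ?_
      have e2 : (dp Z + ξ) v = (rv v (Z.1 : k) / dk k + (ξ v).1,
          rv v (Z.2.1 : k) / dk k + (ξ v).2.1, rv v (Z.2.2 : k) / dk k + (ξ v).2.2) := by
        unfold dp rl
        simp only [Pi.add_apply, Prod.smul_mk, smul_eq_mul]
        refine Prod.ext ?_ (Prod.ext ?_ ?_)
        · simp only [Prod.fst_add, div_eq_inv_mul]
        · simp only [Prod.fst_add, Prod.snd_add, div_eq_inv_mul]
        · simp only [Prod.snd_add, div_eq_inv_mul]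
      rw [e2]
      unfold dz1
      simp only
      rw [div_pow, mul_pow]
      ring
    rw [e1]
    congr 1
    field_simp
    ring
  have hps : ps W r ξ =
      (∑' z : 𝓞 k, Real.exp (-(π * (W / r) ^ 2 *
          ∑ v : Pl k, (rv v (z : k) / dk k + (ξ v).1) ^ 2))) *
        ((∑' z : 𝓞 k, Real.exp (-(π * W ^ 2 *
          ∑ v : Pl k, (rv v (z : k) / dk k + (ξ v).2.1) ^ 2))) *
          ∑' z : 𝓞 k, Real.exp (-(π * (W * r) ^ 2 *
            ∑ v : Pl k, (rv v (z : k) / dk k + (ξ v).2.2) ^ 2))) := by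
    unfold ps
    rw [tsum_congr hdz]
    exact (prod3 _ _ _ (fun _ => (Real.exp_pos _).le) (fun _ => (Real.exp_pos _).le)
      (fun _ => (Real.exp_pos _).le) a2 b2 c2).2
  refine ⟨?_, ?_, ?_⟩
  · rw [funext hga]
    exact (prod3 _ _ _ (fun _ => (Real.exp_pos _).le) (fun _ => (Real.exp_pos _).le)
      (fun _ => (Real.exp_pos _).le) a1 b1 c1).1
  · rw [funext hdz]
    exact (prod3 _ _ _ (fun _ => (Real.exp_pos _).le) (fun _ => (Real.exp_pos _).le)
      (fun _ => (Real.exp_pos _).le) a2 b2 c2).1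
  · have hterm : ∀ Q : QF k, (ga W r P Q : ℂ) * ee Q ξ =
        ((Real.exp (-(π * (∑ v : Pl k, (rv v (Q.1 : k) - (P v).1) ^ 2) / (W / r) ^ 2)) : ℂ) *
          Complex.exp (2 * π * ((∑ v : Pl k, rv v (Q.1 : k) * (ξ v).1 : ℝ) : ℂ) * Complex.I)) *
        (((Real.exp (-(π * (∑ v : Pl k, (rv v (Q.2.1 : k) - (P v).2.1) ^ 2) / W ^ 2)) : ℂ) *
          Complex.exp (2 * π * ((∑ v : Pl k, rv v (Q.2.1 : k) * (ξ v).2.1 : ℝ) : ℂ) *
            Complex.I)) *
        ((Real.exp (-(π * (∑ v : Pl k, (rv v (Q.2.2 : k) - (P v).2.2) ^ 2) / (W * r) ^ 2)) : ℂ) *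
          Complex.exp (2 * π * ((∑ v : Pl k, rv v (Q.2.2 : k) * (ξ v).2.2 : ℝ) : ℂ) *
            Complex.I))) := by
      intro Q
      have he : ee Q ξ =
          Complex.exp (2 * π * ((∑ v : Pl k, rv v (Q.1 : k) * (ξ v).1 : ℝ) : ℂ) * Complex.I) *
          (Complex.exp (2 * π * ((∑ v : Pl k, rv v (Q.2.1 : k) * (ξ v).2.1 : ℝ) : ℂ) *
            Complex.I) *
            Complex.exp (2 * π * ((∑ v : Pl k, rv v (Q.2.2 : k) * (ξ v).2.2 : ℝ) : ℂ) *
              Complex.I)) := by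
        rw [← Complex.exp_add, ← Complex.exp_add]
        unfold ee
        rw [Finset.sum_add_distrib, Finset.sum_add_distrib]
        congr 1
        push_cast
        ring
      rw [hga, he]
      push_cast
      ring
    have hn : ∀ (w : ℝ) (p x : Pl k → ℝ) (a : 𝓞 k),
        ‖(Real.exp (-(π * (∑ v : Pl k, (rv v (a : k) - p v) ^ 2) / w ^ 2)) : ℂ) *
        Complex.exp (2 * π * ((∑ v : Pl k, rv v (a : k) * x v : ℝ) : ℂ) * Complex.I)‖ =
        Real.exp (-(π * (∑ v : Pl k, (rv v (a : k) - p v) ^ 2) / w ^ 2)) := by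
      intro w p x a
      have h1 : (2 * π * ((∑ v : Pl k, rv v (a : k) * x v : ℝ) : ℂ) * Complex.I) =
          ((2 * π * (∑ v : Pl k, rv v (a : k) * x v) : ℝ) : ℂ) * Complex.I := by push_cast; ring
      rw [h1, norm_mul, Complex.norm_exp_ofReal_mul_I, mul_one, Complex.norm_real,
        Real.norm_eq_abs, abs_of_pos (Real.exp_pos _)]
    have sA := a1.congr fun a => (hn (W / r) (fun v => (P v).1) (fun v => (ξ v).1) a).symm
    have sB := b1.congr fun a => (hn W (fun v => (P v).2.1) (fun v => (ξ v).2.1) a).symm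
    have sC := c1.congr fun a => (hn (W * r) (fun v => (P v).2.2) (fun v => (ξ v).2.2) a).symm
    rw [tsum_congr hterm]
    have e9 := prod3c _ _ _ sA sB sC
    have hWW : W ^ (3 * dg k) = (W / r) ^ dg k * (W ^ dg k * (W * r) ^ dg k) := by
      rw [← mul_pow, ← mul_pow, pow_mul]
      congr 1
      field_simp
    have t1 : 0 ≤ ∑' z : 𝓞 k, Real.exp (-(π * (W / r) ^ 2 *
        ∑ v : Pl k, (rv v (z : k) / dk k + (ξ v).1) ^ 2)) :=
      tsum_nonneg fun _ => (Real.exp_pos _).le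
    have t2 : 0 ≤ ∑' z : 𝓞 k, Real.exp (-(π * W ^ 2 *
        ∑ v : Pl k, (rv v (z : k) / dk k + (ξ v).2.1) ^ 2)) :=
      tsum_nonneg fun _ => (Real.exp_pos _).le
    have t3 : 0 ≤ ∑' z : 𝓞 k, Real.exp (-(π * (W * r) ^ 2 *
        ∑ v : Pl k, (rv v (z : k) / dk k + (ξ v).2.2) ^ 2)) :=
      tsum_nonneg fun _ => (Real.exp_pos _).le
    refine le_trans (le_of_eq (congrArg norm e9)) ?_
    rw [norm_mul, norm_mul, hps, hWW]
    refine (mul_le_mul a3 (mul_le_mul b3 c3 (norm_nonneg _) (mul_nonneg (by positivity) t2))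
      (mul_nonneg (norm_nonneg _) (norm_nonneg _))
      (mul_nonneg (by positivity) t1)).trans (le_of_eq ?_)
    ring

end Pool.Agent.H38.CM4
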